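import Pool.Agent.Lib_helper88.Chrom.Edge
import Pool.Agent.Lib_helper90.Chrom.NC

/-!
# Base cases and the independence complex of an `α`-tough graph
-/

open Finset Polynomial

namespace Pool.Agent.Chrom

variable {V : Type*} [Fintype V] [DecidableEq V]

set_option linter.unusedSectionVars false

/-! ### Complete graphs -/

lemma cnt_complete {A : Finset V → Prop} (hs : ∀ v, A {v})
    (hp : ∀ S : Finset V, 2 ≤ S.card → ¬ A S) (N : ℕ) :
    cnt A N = N.descFactorial (Fintype.card V) := by
  classical
  have h : ∀ f : V → Fin N, Good A f ↔ Function.Injective f := by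
    intro f
    constructor
    · intro hf u v huv
      by_contra hne
      refine hp (cls f u) ?_ (hf u)
      calc 2 = ({u, v} : Finset V).card := (card_pair hne).symm
        _ ≤ (cls f u).card := card_le_card (by
          intro w hw
          rw [mem_insert, mem_singleton] at hw
          rw [mem_cls]
          rcases hw with rfl | rfl
          · rfl
          · exact huv.symm)
    · intro hf v
      have : cls f v = {v} := by
        ext w; rw [mem_cls, mem_singleton]; exact hf.eq_iff
      rw [this]; exact hs v
  unfold cnt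
  simp only [h]
  rw [Nat.card_congr (Equiv.subtypeInjectiveEquivEmbedding V (Fin N)), Nat.card_eq_fintype_card,
    Fintype.card_embedding_eq, Fintype.card_fin]

lemma poly_complete {A : Finset V → Prop} (hs : ∀ v, A {v})
    (hp : ∀ S : Finset V, 2 ≤ S.card → ¬ A S) : poly A = descPochhammer ℝ (Fintype.card V) :=
  eq_of_eval_nat fun N => by
    rw [poly_eval_nat, cnt_complete hs hp, descPochhammer_eval_eq_descFactorial]

variable {A : Finset V → Prop}

lemma NC.no_large (h : NC A) (hc : ∀ u v, u ≠ v → (gr A).Adj u v) (S : Finset V)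
    (hS : 2 ≤ S.card) : ¬ A S := by
  intro hA
  obtain ⟨u, hu, v, hv, huv⟩ := one_lt_card.1 (show 1 < S.card by omega)
  exact h.not_adj hA hu hv (hc u v huv)

lemma NC.complete_two (h : NC A) (h2 : Fintype.card V = 2) (u v : V) (huv : u ≠ v) :
    (gr A).Adj u v := by
  have hall : ∀ w, w = u ∨ w = v := by
    intro w
    by_contra hno
    push Not at hno
    have h3 : ({u, v, w} : Finset V).card = 3 := by
      rw [card_insert_of_notMem, card_insert_of_notMem, card_singleton]
      · rw [mem_singleton]; exact hno.2.symm
      · rw [mem_insert, mem_singleton]; push Not; exact ⟨huv, hno.1.symm⟩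
    have := card_le_univ ({u, v, w} : Finset V)
    omega
  obtain ⟨p⟩ := h.conn u v
  cases p with
  | nil => exact absurd rfl huv
  | @cons _ c _ hc p =>
    rcases hall c with rfl | rfl
    · exact absurd hc ((gr A).loopless.irrefl _)
    · exact hc

lemma NC.complete_three (h : NC A) (h3 : Fintype.card V = 3) (u v : V) (huv : u ≠ v) :
    (gr A).Adj u v := by
  have hex : ∃ w, w ≠ u ∧ w ≠ v := by
    by_contra hno
    push Not at hno
    have hsub : (univ : Finset V) ⊆ {u, v} := by
      intro w _
      rw [mem_insert, mem_singleton]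
      by_cases hw : w = u
      · exact Or.inl hw
      · exact Or.inr (hno w hw)
    have h1 := card_le_card hsub
    rw [Finset.card_univ, card_pair huv] at h1
    omega
  obtain ⟨w, hwu, hwv⟩ := hex
  have hall : ∀ z, z = u ∨ z = v ∨ z = w := by
    intro z
    by_contra hno
    push Not at hno
    have h4 : ({u, v, w, z} : Finset V).card = 4 := by
      rw [card_insert_of_notMem, card_insert_of_notMem, card_insert_of_notMem, card_singleton]
      · rw [mem_singleton]; exact hno.2.2.symm
      · rw [mem_insert, mem_singleton]; push Not; exact ⟨hwv.symm, hno.2.1.symm⟩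
      · rw [mem_insert, mem_insert, mem_singleton]; push Not; exact ⟨huv, hwu.symm, hno.1.symm⟩
    have := card_le_univ ({u, v, w, z} : Finset V)
    omega
  have hk : kk (gr A) {w} ≤ 1 := by
    have h1 := h.face {w} (h.sing w) (singleton_nonempty w)
    unfold cc at h1
    rw [card_singleton] at h1
    omega
  have hu : u ∉ ({w} : Finset V) := by rw [mem_singleton]; exact hwu.symm
  have hv : v ∉ ({w} : Finset V) := by rw [mem_singleton]; exact hwv.symm
  have he := card_le_one.1 hk _ (comp_mem_comps hu) _ (comp_mem_comps hv)
  have hr : (del (gr A) {w}).Reachable u v := by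
    rw [← mem_comp, he]; exact self_mem_comp v
  obtain ⟨p⟩ := hr
  cases p with
  | nil => exact absurd rfl huv
  | @cons _ c _ hc p =>
    rcases hall c with rfl | rfl | rfl
    · exact absurd hc.1 ((gr A).loopless.irrefl _)
    · exact hc.1
    · exact absurd (mem_singleton_self _) hc.2.2

/-- **base cases** -/
theorem NC.FF_pos_of_card_le_three (h : NC A) (h3 : Fintype.card V ≤ 3) {q : ℝ} (h1 : 1 < q)
    (h2 : q < 2) : 0 < FF A q := by
  have h2' := h.two
  have hq0 : 0 < q := by linarith
  have hcases : Fintype.card V = 2 ∨ Fintype.card V = 3 := by omega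
  unfold FF
  rcases hcases with hc | hc
  · rw [poly_complete h.sing (h.no_large (h.complete_two hc)), hc]
    simp only [descPochhammer_succ_right, descPochhammer_zero, eval_mul, eval_sub, eval_X,
      eval_natCast, eval_one]
    push_cast
    nlinarith [mul_pos hq0 (sub_pos.2 h1)]
  · rw [poly_complete h.sing (h.no_large (h.complete_three hc)), hc]
    simp only [descPochhammer_succ_right, descPochhammer_zero, eval_mul, eval_sub, eval_X,
      eval_natCast, eval_one]
    push_cast
    nlinarith [mul_pos (mul_pos hq0 (sub_pos.2 h1)) (sub_pos.2 h2)]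

/-! ### The independence complex -/

variable {G : SimpleGraph V}

lemma gr_indep : gr (Indep G) = G := by
  ext u v
  rw [gr_adj]
  constructor
  · rintro ⟨hne, hn⟩
    by_contra hadj
    refine hn ?_
    intro a ha b hb hab
    rw [mem_insert, mem_singleton] at ha hb
    rcases ha with rfl | rfl <;> rcases hb with rfl | rfl
    · exact G.loopless.irrefl _ hab
    · exact hadj hab
    · exact hadj hab.symm
    · exact G.loopless.irrefl _ hab
  · intro h
    exact ⟨h.ne, fun hn => hn u (by simp) v (by simp) h⟩

lemma indep_mono {S T : Finset V} (h : S ⊆ T) (hT : Indep G T) : Indep G S :=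
  fun u hu v hv => hT u (h hu) v (h hv)

lemma card_minNF_indep {f : Finset V} (hf : MinNF (Indep G) f) : f.card ≤ 2 := by
  by_contra hlt
  push Not at hlt
  have h1 := hf.1
  unfold Indep at h1
  push Not at h1
  obtain ⟨u, hu, v, hv, huv⟩ := h1
  have hss : ({u, v} : Finset V) ⊂ f := by
    rw [Finset.ssubset_iff_subset_ne]
    refine ⟨pair_subset_iff.2 ⟨hu, hv⟩, ?_⟩
    intro h
    rw [← h, card_pair huv.ne] at hlt
    omega
  exact hf.2 _ hss u (by simp) v (by simp) huv

/-- the independence complex of an `α`-tough graph is in the class -/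
theorem nc_indep (hG : G.Connected)
    (hα : ∀ S : Set V, S.Nonempty → S.Pairwise (fun u v => ¬ G.Adj u v) →
      Nat.card (G.induce Sᶜ).ConnectedComponent ≤ S.ncard)
    (h2 : 2 ≤ Fintype.card V) : NC (Indep G) where
  down := fun _ _ hST hT => indep_mono hST hT
  sing := by
    intro v a ha b hb hab
    rw [mem_singleton] at ha hb
    subst ha; subst hb
    exact G.loopless.irrefl _ hab
  two := h2
  conn := by rw [gr_indep]; exact hG.preconnected
  face := by
    intro S hS hne
    rw [gr_indep]
    have h1 := hα (S : Set V) (by exact_mod_cast hne) (fun u hu v hv _ =>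
      hS u (by exact_mod_cast hu) v (by exact_mod_cast hv))
    rw [Set.ncard_coe_finset] at h1
    unfold cc
    rw [kk_eq_card]
    have : (Nat.card (G.induce ((S : Set V)ᶜ)).ConnectedComponent : ℤ) ≤ S.card := by
      exact_mod_cast h1
    linarith
  nonface := by
    intro f hf h3
    have := card_minNF_indep hf
    omega
  nocross := by
    intro f g hf _ h3
    have := card_minNF_indep hf
    omega

lemma star_indep : ∀ f, MinNF (Indep G) f → 3 ≤ f.card → cc (gr (Indep G)) f = 0 →
    ∀ S, S ⊂ f → 2 ≤ S.card → cc (gr (Indep G)) S < 0 := by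
  intro f hf h3
  have := card_minNF_indep hf
  omega

/-- the case of one vertex -/
lemma FF_one_vertex (h : Fintype.card V = 1) {A : Finset V → Prop} (hs : ∀ v, A {v}) {q : ℝ}
    (hq : 0 < q) : FF A q < 0 := by
  have hp : ∀ S : Finset V, 2 ≤ S.card → ¬ A S := by
    intro S hS
    have := card_le_univ S
    omega
  unfold FF
  rw [poly_complete hs hp, h]
  simp only [descPochhammer_succ_right, descPochhammer_zero, eval_mul, eval_sub, eval_X,
    eval_natCast, eval_one]
  push_cast
  linarith

/-- **the frozen statement from the positivity of the class NC + STAR** -/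
theorem S12543_of (key : ∀ (V : Type) [Fintype V] [DecidableEq V] (A : Finset V → Prop), NC A →
      (∀ f, MinNF A f → 3 ≤ f.card → cc (gr A) f = 0 → ∀ S, S ⊂ f → 2 ≤ S.card →
        cc (gr A) S < 0) → ∀ q : ℝ, 1 < q → q < 2 → 0 < FF A q) :
    ∀ (V : Type) [Fintype V] [DecidableEq V] (G : SimpleGraph V) [DecidableRel G.Adj],
    G.Connected →
    (∀ S : Set V, S.Nonempty → S.Pairwise (fun u v => ¬ G.Adj u v) →
        Nat.card (G.induce Sᶜ).ConnectedComponent ≤ S.ncard) →
    ∀ x : ℝ, 1 < x → x < 2 →
      (∑ A ∈ G.edgeFinset.powerset,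
        (-1 : ℝ) ^ A.card *
          x ^ Nat.card (SimpleGraph.fromEdgeSet (A : Set (Sym2 V))).ConnectedComponent) ≠ 0 := by
  intro V _ _ G _ hG hα x h1 h2
  rw [edge_expansion G x]
  have hpos : 0 < Fintype.card V := by
    obtain ⟨v⟩ := hG.nonempty
    exact Fintype.card_pos_iff.2 ⟨v⟩
  intro h0
  by_cases hc : 2 ≤ Fintype.card V
  · have h3 := key V (Indep G) (nc_indep hG hα hc) star_indep x h1 h2
    unfold FF at h3
    rw [h0, mul_zero] at h3
    exact lt_irrefl _ h3
  · have h3 := FF_one_vertex (V := V) (by omega) (A := Indep G) (by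
      intro v a ha b hb hab
      rw [mem_singleton] at ha hb
      subst ha; subst hb
      exact G.loopless.irrefl _ hab) (q := x) (by linarith)
    unfold FF at h3
    rw [h0, mul_zero] at h3
    exact lt_irrefl _ h3

end Pool.Agent.Chrom
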