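import Pool.Agent.Lib_helper7.Chrom.Sep
import Pool.Agent.Lib_helper88.Chrom.Quot
import Pool.Agent.Lib_helper90.Chrom.NC

/-!
# The class NC at a clique cut with two vertices

`Side A x y W`: `x ~ y`, `W` contains `x` and `y`, and only `x` and `y` have neighbours outside `W`.
Then the restriction `rs A W` is in NC if `A` is, and the values `c(S)`, `S ⊆ W` (not containing both
`x` and `y`), the STAR and the ROOT condition are inherited.
-/

open Finset

namespace Pool.Agent.Chrom

variable {V : Type*} [Fintype V] [DecidableEq V]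

set_option linter.unusedSectionVars false

/-- the set of vertices of `V` given by a set of vertices of the subtype `W` -/
abbrev upW {W : Finset V} (S : Finset {v // v ∈ W}) : Finset V :=
  S.map (Function.Embedding.subtype _)

/-- `W` is one side of the clique cut `{x, y}` -/
structure Side (A : Finset V → Prop) (x y : V) (W : Finset V) : Prop where
  mx : x ∈ W
  my : y ∈ W
  adj : (gr A).Adj x y
  out : ∀ u ∈ W, ∀ v, v ∉ W → (gr A).Adj u v → u = x ∨ u = y

variable {A : Finset V → Prop} {x y : V} {W : Finset V}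

lemma mem_upW {S : Finset {v // v ∈ W}} {v : V} : v ∈ upW S ↔ ∃ h : v ∈ W, (⟨v, h⟩ : {v // v ∈ W}) ∈ S := by
  unfold upW
  rw [mem_map]
  constructor
  · rintro ⟨w, hw, rfl⟩; exact ⟨w.2, hw⟩
  · rintro ⟨h, hS⟩; exact ⟨⟨v, h⟩, hS, rfl⟩

lemma coe_mem_upW {S : Finset {v // v ∈ W}} {v : {v // v ∈ W}} : (v : V) ∈ upW S ↔ v ∈ S := by
  rw [mem_upW]
  exact ⟨fun ⟨_, h⟩ => h, fun h => ⟨v.2, h⟩⟩

lemma upW_subset (S : Finset {v // v ∈ W}) : upW S ⊆ W := fun _ hv => (mem_upW.1 hv).1

lemma card_upW (S : Finset {v // v ∈ W}) : (upW S).card = S.card := card_map _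

lemma upW_subset_upW {S T : Finset {v // v ∈ W}} : upW S ⊆ upW T ↔ S ⊆ T := map_subset_map

lemma exists_upW {X : Finset V} (h : X ⊆ W) : ∃ S : Finset {v // v ∈ W}, upW S = X := by
  refine ⟨univ.filter fun v => (v : V) ∈ X, ?_⟩
  ext v
  rw [mem_upW]
  constructor
  · rintro ⟨hv, h1⟩
    exact (mem_filter.1 h1).2
  · intro hv
    exact ⟨h hv, mem_filter.2 ⟨mem_univ _, hv⟩⟩

lemma upW_ssubset_upW {S T : Finset {v // v ∈ W}} : upW S ⊂ upW T ↔ S ⊂ T := by
  rw [ssubset_iff_subset_not_subset, ssubset_iff_subset_not_subset, upW_subset_upW, upW_subset_upW]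

lemma rs_iff {S : Finset {v // v ∈ W}} : rs A W S ↔ A (upW S) := Iff.rfl

lemma minNF_rs {f : Finset {v // v ∈ W}} : MinNF (rs A W) f ↔ MinNF A (upW f) := by
  constructor
  · rintro ⟨h1, h2⟩
    refine ⟨h1, fun X hX => ?_⟩
    obtain ⟨S, rfl⟩ := exists_upW (hX.subset.trans (upW_subset f))
    exact h2 S (upW_ssubset_upW.1 hX)
  · rintro ⟨h1, h2⟩
    exact ⟨h1, fun X hX => h2 _ (upW_ssubset_upW.2 hX)⟩

lemma gr_rs_adj {u v : {v // v ∈ W}} : (gr (rs A W)).Adj u v ↔ (gr A).Adj u v := by
  rw [gr_adj, gr_adj, rs_iff]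
  have e : upW ({u, v} : Finset {v // v ∈ W}) = {(u : V), (v : V)} := by
    ext w
    rw [mem_upW]
    simp only [mem_insert, mem_singleton]
    constructor
    · rintro ⟨hw, h | h⟩
      · left; rw [← h]
      · right; rw [← h]
    · rintro (rfl | rfl)
      · exact ⟨u.2, Or.inl rfl⟩
      · exact ⟨v.2, Or.inr rfl⟩
  rw [e]
  constructor
  · rintro ⟨h1, h2⟩; exact ⟨fun h => h1 (Subtype.ext h), h2⟩
  · rintro ⟨h1, h2⟩; exact ⟨fun h => h1 (congrArg _ h), h2⟩

lemma reach_upW {S : Finset {v // v ∈ W}} {u v : {v // v ∈ W}}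
    (h : (del (gr (rs A W)) S).Reachable u v) : (del (gr A) (upW S)).Reachable u v := by
  obtain ⟨p⟩ := h
  induction p with
  | nil => exact SimpleGraph.Reachable.refl _
  | cons h p ih =>
    refine SimpleGraph.Reachable.trans (SimpleGraph.Adj.reachable ?_) ih
    exact ⟨gr_rs_adj.1 h.1, fun hh => h.2.1 (coe_mem_upW.1 hh), fun hh => h.2.2 (coe_mem_upW.1 hh)⟩

namespace Side

lemma symm (hs : Side A x y W) : Side A y x W where
  mx := hs.my
  my := hs.mx
  adj := hs.adj.symm
  out := fun u hu v hv huv => (hs.out u hu v hv huv).symm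

/-- walks outside `{x, y}` starting outside `W` stay outside `W` -/
lemma walk_out (hs : Side A x y W) {S : Finset V} (hS : S ⊆ W) {u v : V}
    (h : (del (gr A) {x, y}).Reachable u v) (hu : u ∉ W) :
    v ∉ W ∧ (del (gr A) S).Reachable u v := by
  obtain ⟨p⟩ := h
  induction p with
  | nil => exact ⟨hu, SimpleGraph.Reachable.refl _⟩
  | @cons a b c hab p ih =>
    have hb : b ∉ W := by
      intro hb
      have h1 := hs.out b hb a hu hab.1.symm
      have h2 := hab.2.2
      rw [mem_insert, mem_singleton] at h2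
      exact h2 h1
    obtain ⟨h1, h2⟩ := ih hb
    refine ⟨h1, SimpleGraph.Reachable.trans (SimpleGraph.Adj.reachable ?_) h2⟩
    exact ⟨hab.1, fun h => hu (hS h), fun h => hb (hS h)⟩

/-- every vertex outside `W` is joined to `x` outside `S ⊆ W`, `x ∉ S` -/
lemma reach_x (hs : Side A x y W) (hA : NC A) {S : Finset V} (hS : S ⊆ W) (hx : x ∉ S) {v : V}
    (hv : v ∉ W) : (del (gr A) S).Reachable v x := by
  classical
  have hvxy : v ∉ ({x, y} : Finset V) := by
    intro h
    rw [mem_insert, mem_singleton] at h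
    rcases h with rfl | rfl
    · exact hv hs.mx
    · exact hv hs.my
  -- some vertex of the component of `v` is adjacent to `x`
  have key : ∃ w ∈ comp (gr A) {x, y} v, (gr A).Adj w x := by
    by_contra hno
    push Not at hno
    set C := comp (gr A) {x, y} v with hC
    have hCm : C ∈ comps (gr A) {x, y} := comp_mem_comps hvxy
    have hCW : ∀ w ∈ C, w ∉ W := fun w hw => (hs.walk_out (empty_subset _) (mem_comp.1 hw) hv).1
    have hxC : x ∉ C := fun h => hCW x h hs.mx
    have hyC : y ∉ C := fun h => hCW y h hs.my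
    have hCy : comp (gr A) {y} v ⊆ C := by
      intro w hw
      rw [mem_comp] at hw
      obtain ⟨p⟩ := hw
      have : ∀ a b (_ : (del (gr A) {y}).Walk a b), a ∈ C → b ∈ C := by
        intro a b p
        induction p with
        | nil => exact id
        | @cons a b c hab p ih =>
          intro ha
          refine ih ?_
          refine comps_closed hCm ha hab.1 ?_
          rw [mem_insert, mem_singleton]
          rintro (rfl | rfl)
          · exact hno a ha hab.1
          · exact hab.2.2 (mem_singleton_self _)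
      exact this _ _ p (self_mem_comp v)
    have h1 : comp (gr A) {y} v ∈ comps (gr A) {y} := comp_mem_comps (by
      rw [mem_singleton]; rintro rfl; exact hv hs.my)
    have h2 : comp (gr A) {y} x ∈ comps (gr A) {y} := comp_mem_comps (by
      rw [mem_singleton]; exact hs.adj.ne)
    have h3 : comp (gr A) {y} v ≠ comp (gr A) {y} x := by
      intro h
      have : x ∈ comp (gr A) {y} v := by rw [h]; exact self_mem_comp x
      exact hxC (hCy this)
    have h4 : 1 < kk (gr A) {y} := one_lt_card.2 ⟨_, h1, _, h2, h3⟩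
    have h5 := hA.face {y} (hA.sing y) (singleton_nonempty y)
    unfold cc at h5
    rw [card_singleton] at h5
    omega
  obtain ⟨w, hw, hwx⟩ := key
  obtain ⟨h1, h2⟩ := hs.walk_out hS (mem_comp.1 hw) hv
  exact h2.trans (SimpleGraph.Adj.reachable ⟨hwx, fun h => h1 (hS h), hx⟩)

/-- the projection `V → W` sending everything outside `W` to `x` -/
def proj (hs : Side A x y W) (v : V) : {v // v ∈ W} := if h : v ∈ W then ⟨v, h⟩ else ⟨x, hs.mx⟩

lemma proj_mem (hs : Side A x y W) {v : V} (h : v ∈ W) : hs.proj v = ⟨v, h⟩ := by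
  simp [proj, h]

lemma proj_coe (hs : Side A x y W) (v : {v // v ∈ W}) : hs.proj v = v := by
  simp [proj, v.2]

lemma proj_not_mem (hs : Side A x y W) {v : V} (h : v ∉ W) : hs.proj v = ⟨x, hs.mx⟩ := by
  simp [proj, h]

lemma mem_upW_iff (hs : Side A x y W) {S : Finset {v // v ∈ W}} (hx : x ∉ upW S) (v : V) :
    v ∈ upW S ↔ hs.proj v ∈ S := by
  by_cases h : v ∈ W
  · rw [hs.proj_mem h]; exact ⟨fun hv => (mem_upW.1 hv).2, fun hv => mem_upW.2 ⟨h, hv⟩⟩
  · rw [hs.proj_not_mem h]
    constructor
    · intro hv; exact absurd (upW_subset S hv) h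
    · intro hv; exact absurd (coe_mem_upW.2 hv) hx

lemma step (hs : Side A x y W) {S : Finset {v // v ∈ W}} (hx : x ∉ upW S) (u v : V)
    (h : (del (gr A) (upW S)).Adj u v) :
    (del (gr (rs A W)) S).Reachable (hs.proj u) (hs.proj v) := by
  have hxS : (⟨x, hs.mx⟩ : {v // v ∈ W}) ∉ S := fun h => hx (coe_mem_upW.2 h)
  have toX : ∀ u v, (del (gr A) (upW S)).Adj u v → u ∈ W → v ∉ W →
      (del (gr (rs A W)) S).Reachable (hs.proj u) (hs.proj v) := by
    intro u v h hu hv
    rw [hs.proj_mem hu, hs.proj_not_mem hv]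
    have huS : (⟨u, hu⟩ : {v // v ∈ W}) ∉ S := fun hh => h.2.1 (mem_upW.2 ⟨hu, hh⟩)
    rcases hs.out u hu v hv h.1 with rfl | rfl
    · exact SimpleGraph.Reachable.refl _
    · exact SimpleGraph.Adj.reachable ⟨gr_rs_adj.2 hs.adj.symm, huS, hxS⟩
  by_cases hu : u ∈ W <;> by_cases hv : v ∈ W
  · rw [hs.proj_mem hu, hs.proj_mem hv]
    refine SimpleGraph.Adj.reachable ⟨gr_rs_adj.2 h.1, ?_, ?_⟩
    · exact fun hh => h.2.1 (mem_upW.2 ⟨hu, hh⟩)
    · exact fun hh => h.2.2 (mem_upW.2 ⟨hv, hh⟩)
  · exact toX u v h hu hv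
  · exact (toX v u h.symm hv hu).symm
  · rw [hs.proj_not_mem hu, hs.proj_not_mem hv]

/-- components of the side, `x ∉ S` -/
lemma kk_x (hs : Side A x y W) (hA : NC A) {S : Finset {v // v ∈ W}} (hx : x ∉ upW S) :
    kk (gr (rs A W)) S = kk (gr A) (upW S) := by
  have hX : ∀ v, v ∉ W → (del (gr A) (upW S)).Reachable v x := fun v hv =>
    hs.reach_x hA (upW_subset S) hx hv
  refine (kk_map (φ := hs.proj) (fun w => ⟨w, hs.proj_coe w⟩) (hs.mem_upW_iff hx) (hs.step hx)
    ?_ ?_).symm
  · intro u v hv huv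
    by_cases hu' : u ∈ W <;> by_cases hv' : v ∈ W
    · rw [hs.proj_mem hu', hs.proj_mem hv', Subtype.mk.injEq] at huv
      rw [huv]
    · rw [hs.proj_mem hu', hs.proj_not_mem hv', Subtype.mk.injEq] at huv
      rw [huv]; exact (hX v hv').symm
    · rw [hs.proj_not_mem hu', hs.proj_mem hv', Subtype.mk.injEq] at huv
      rw [← huv]; exact hX u hu'
    · exact (hX u hu').trans (hX v hv').symm
  · intro u v huv
    refine ⟨u, v, hs.proj_coe u, hs.proj_coe v, SimpleGraph.Adj.reachable ?_⟩
    exact ⟨gr_rs_adj.1 huv.1, fun hh => huv.2.1 (coe_mem_upW.1 hh),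
      fun hh => huv.2.2 (coe_mem_upW.1 hh)⟩

lemma reach_x_iff (hs : Side A x y W) {S : Finset {v // v ∈ W}} (hx : x ∉ upW S)
    {u v : {v // v ∈ W}} :
    (del (gr (rs A W)) S).Reachable u v ↔ (del (gr A) (upW S)).Reachable u v := by
  refine ⟨reach_upW, fun h => ?_⟩
  have := reachable_map (φ := hs.proj) (hs.step hx) h
  rwa [hs.proj_coe, hs.proj_coe] at this

/-- `S` misses `x` or `y` -/
def Miss (x y : V) (S : Finset V) : Prop := x ∉ S ∨ y ∉ S

lemma kk_eq (hs : Side A x y W) (hA : NC A) {S : Finset {v // v ∈ W}} (h : Miss x y (upW S)) :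
    kk (gr (rs A W)) S = kk (gr A) (upW S) := by
  rcases h with h | h
  · exact hs.kk_x hA h
  · exact hs.symm.kk_x hA h

lemma cc_eq (hs : Side A x y W) (hA : NC A) {S : Finset {v // v ∈ W}} (h : Miss x y (upW S)) :
    cc (gr (rs A W)) S = cc (gr A) (upW S) := by
  unfold cc
  rw [hs.kk_eq hA h, card_upW]

lemma reach_iff (hs : Side A x y W) {S : Finset {v // v ∈ W}} (h : Miss x y (upW S))
    {u v : {v // v ∈ W}} :
    (del (gr (rs A W)) S).Reachable u v ↔ (del (gr A) (upW S)).Reachable u v := by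
  rcases h with h | h
  · exact hs.reach_x_iff h
  · exact hs.symm.reach_x_iff h

lemma reach_out (hs : Side A x y W) (hA : NC A) {S : Finset V} (hS : S ⊆ W) {v : V}
    (hx : x ∉ S) (hv : v ∉ W) : (del (gr A) S).Reachable v x := hs.reach_x hA hS hx hv

lemma miss_face (hs : Side A x y W) (hA : NC A) {S : Finset V} (h : A S) : Miss x y S := by
  by_contra hno
  unfold Miss at hno
  push Not at hno
  exact hA.not_adj h hno.1 hno.2 hs.adj

lemma miss_minNF (hs : Side A x y W) {f : Finset V} (hf : MinNF A f) (h3 : 3 ≤ f.card) :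
    Miss x y f := by
  by_contra hno
  unfold Miss at hno
  push Not at hno
  refine hs.adj.2 (hf.2 {x, y} ?_)
  rw [Finset.ssubset_iff_subset_ne]
  refine ⟨pair_subset_iff.2 hno, ?_⟩
  intro h
  rw [← h, card_pair hs.adj.ne] at h3
  omega

lemma miss_mono {S T : Finset V} (h : S ⊆ T) (hT : Miss x y T) : Miss x y S :=
  hT.imp (fun h1 h2 => h1 (h h2)) (fun h1 h2 => h1 (h h2))

/-- **a side of a clique cut is in the class NC** -/
theorem nc (hs : Side A x y W) (hA : NC A) : NC (rs A W) where
  down := fun S T hST hT => hA.down _ _ (upW_subset_upW.2 hST) hT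
  sing := by
    intro v
    rw [rs_iff]
    have : upW ({v} : Finset {v // v ∈ W}) = {(v : V)} := by
      unfold upW; rw [map_singleton]; rfl
    rw [this]; exact hA.sing v
  two := by
    rw [Fintype.card_coe]
    calc 2 = ({x, y} : Finset V).card := (card_pair hs.adj.ne).symm
      _ ≤ W.card := card_le_card (pair_subset_iff.2 ⟨hs.mx, hs.my⟩)
  conn := by
    intro u v
    have h1 : (del (gr A) (upW (∅ : Finset {v // v ∈ W}))).Reachable (u : V) v := by
      refine (hA.conn u v).mono ?_
      intro a b hab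
      exact ⟨hab, by simp [upW], by simp [upW]⟩
    have h2 := (hs.reach_iff (S := ∅) (Or.inl (by simp [upW]))).2 h1
    refine h2.mono ?_
    intro a b hab
    exact hab.1
  face := by
    intro S hS hne
    rw [hs.cc_eq hA (hs.miss_face hA hS)]
    exact hA.face _ hS (by rwa [upW, map_nonempty])
  nonface := by
    intro f hf h3
    rw [minNF_rs] at hf
    rw [← card_upW] at h3
    rw [hs.cc_eq hA (hs.miss_minNF hf h3)]
    exact hA.nonface _ hf h3
  nocross := by
    intro f g hf hg h3 h3' hd
    rw [minNF_rs] at hf hg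
    rw [← card_upW] at h3 h3'
    have hd' : Disjoint (upW f) (upW g) := (Finset.disjoint_map _).2 hd
    have h1 := hA.nocross _ _ hf hg h3 h3' hd'
    refine meet_le_of_reachable fun u hu v hv => ?_
    rw [hs.reach_iff (hs.miss_minNF hf h3)]
    exact reachable_of_meet_le hd' h1 (coe_mem_upW.2 hu) (coe_mem_upW.2 hv)

lemma tight (hs : Side A x y W) (hA : NC A) {T : Finset {v // v ∈ W}} (hT : Tight (rs A W) T) :
    Tight A (upW T) where
  face := hT.face
  two := by rw [card_upW]; exact hT.two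
  zero := by rw [← hs.cc_eq hA (hs.miss_face hA hT.face)]; exact hT.zero

/-- the STAR condition is inherited -/
theorem star (hs : Side A x y W) (hA : NC A)
    (h : ∀ f, MinNF A f → 3 ≤ f.card → cc (gr A) f = 0 → ∀ S, S ⊂ f → 2 ≤ S.card → cc (gr A) S < 0) :
    ∀ f, MinNF (rs A W) f → 3 ≤ f.card → cc (gr (rs A W)) f = 0 → ∀ S, S ⊂ f → 2 ≤ S.card →
      cc (gr (rs A W)) S < 0 := by
  intro f hf h3 h0 S hS h2
  rw [minNF_rs] at hf
  rw [← card_upW] at h3 h2
  have hm := hs.miss_minNF hf h3
  have hS' : upW S ⊂ upW f := upW_ssubset_upW.2 hS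
  rw [hs.cc_eq hA hm] at h0
  rw [hs.cc_eq hA (miss_mono hS'.subset hm)]
  exact h _ hf h3 h0 _ hS' h2

/-- the ROOT condition is inherited (roots outside `W` are replaced by `x`) -/
theorem root (hs : Side A x y W) (hA : NC A) {a b : V}
    (h : ∀ T, Tight A T → a ∈ T ∨ b ∈ T ∨ ¬ (del (gr A) T).Reachable a b) :
    ∀ T, Tight (rs A W) T → hs.proj a ∈ T ∨ hs.proj b ∈ T ∨
      ¬ (del (gr (rs A W)) T).Reachable (hs.proj a) (hs.proj b) := by
  intro T hT
  by_contra hno
  push Not at hno
  obtain ⟨ha, hb, hr⟩ := hno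
  rw [hs.reach_iff (hs.miss_face hA hT.face)] at hr
  have key : ∀ c : V, hs.proj c ∉ T → c ∉ upW T ∧ (del (gr A) (upW T)).Reachable c (hs.proj c) := by
    intro c hc
    by_cases hcW : c ∈ W
    · rw [hs.proj_mem hcW] at hc ⊢
      exact ⟨fun hh => hc (mem_upW.1 hh).2, SimpleGraph.Reachable.refl _⟩
    · rw [hs.proj_not_mem hcW] at hc ⊢
      refine ⟨fun hh => hcW (upW_subset T hh), ?_⟩
      exact hs.reach_x hA (upW_subset T) (fun hh => hc (coe_mem_upW.1 hh)) hcW
  obtain ⟨ha1, ha2⟩ := key a ha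
  obtain ⟨hb1, hb2⟩ := key b hb
  rcases h _ (hs.tight hA hT) with h1 | h1 | h1
  · exact ha1 h1
  · exact hb1 h1
  · exact h1 ((ha2.trans hr).trans hb2.symm)

end Side

/-! ### The two sides of a clique cut -/

/-- a coupling at `({x, y}, E)`: a member meeting `E` and the other side -/
def Coup (A : Finset V → Prop) (x y : V) (E h : Finset V) : Prop :=
  MinNF A h ∧ 3 ≤ h.card ∧ (∃ u ∈ h, u ∈ E) ∧ ∃ v ∈ h, v ∉ E ∧ v ≠ x ∧ v ≠ y

variable {E : Finset V}

lemma side_left (hadj : (gr A).Adj x y) (hE : E ∈ comps (gr A) {x, y}) :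
    Side A x y (E ∪ {x, y}) where
  mx := by simp
  my := by simp
  adj := hadj
  out := by
    intro u hu v hv huv
    rw [mem_union, mem_insert, mem_singleton] at hu hv
    rcases hu with hu | hu
    · exfalso
      push Not at hv
      refine hv.1 (comps_closed hE hu huv ?_)
      rw [mem_insert, mem_singleton]
      push Not
      exact hv.2
    · exact hu

lemma side_right (hadj : (gr A).Adj x y) (hE : E ∈ comps (gr A) {x, y}) :
    Side A x y (univ \ E) where
  mx := by
    rw [mem_sdiff]
    exact ⟨mem_univ _, fun h => Finset.disjoint_left.1 (comps_disjoint_S hE) h (by simp)⟩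
  my := by
    rw [mem_sdiff]
    exact ⟨mem_univ _, fun h => Finset.disjoint_left.1 (comps_disjoint_S hE) h (by simp)⟩
  adj := hadj
  out := by
    intro u hu v hv huv
    rw [mem_sdiff] at hu hv
    push Not at hv
    have hvE := hv (mem_univ v)
    by_contra hno
    push Not at hno
    refine hu.2 (comps_closed hE hvE huv.symm ?_)
    rw [mem_insert, mem_singleton]
    push Not
    exact hno

theorem clSplit (hA : NC A) (hadj : (gr A).Adj x y) (hE : E ∈ comps (gr A) {x, y})
    (hno : ∀ h, ¬ Coup A x y E h) : ClSplit A x y (E ∪ {x, y}) (univ \ E) where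
  ne := hadj.ne
  edge := fun S hx hy hS => hA.not_adj hS hx hy hadj
  emp := hA.empty
  union := by
    ext v
    simp only [mem_union, mem_sdiff, mem_univ, true_and, iff_true]
    tauto
  inter := by
    have hd := comps_disjoint_S hE
    ext v
    simp only [mem_union, mem_inter, mem_sdiff, mem_univ, true_and]
    constructor
    · rintro ⟨h1 | h1, h2⟩
      · exact absurd h1 h2
      · exact h1
    · intro h1
      exact ⟨Or.inr h1, fun h2 => Finset.disjoint_left.1 hd h2 h1⟩
  split := by
    intro S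
    constructor
    · intro hS
      exact ⟨hA.down _ _ inter_subset_left hS, hA.down _ _ inter_subset_left hS⟩
    · rintro ⟨h1, h2⟩
      by_contra hS
      obtain ⟨f, hfS, hf⟩ := exists_minNF hS
      -- `f` lies in one of the sides
      have key : f ⊆ E ∪ {x, y} ∨ f ⊆ univ \ E := by
        by_contra hcon
        push Not at hcon
        obtain ⟨hc1, hc2⟩ := hcon
        rw [Finset.not_subset] at hc1 hc2
        obtain ⟨v, hv, hv'⟩ := hc1
        obtain ⟨u, hu, hu'⟩ := hc2
        rw [mem_sdiff] at hu'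
        push Not at hu'
        have huE := hu' (mem_univ u)
        rw [mem_union, mem_insert, mem_singleton] at hv'
        push Not at hv'
        have h2c := hA.two_le_card hf
        by_cases h3 : 3 ≤ f.card
        · exact hno f ⟨hf, h3, ⟨u, hu, huE⟩, v, hv, hv'⟩
        · obtain ⟨p, q, rfl, hpq⟩ := NC.pair_of_card_two hf (by omega)
          have huv : u ≠ v := fun h => hv'.1 (h ▸ huE)
          have hadj' : (gr A).Adj u v := by
            rw [mem_insert, mem_singleton] at hu hv
            rcases hu with rfl | rfl <;> rcases hv with rfl | rfl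
            · exact absurd rfl huv
            · exact hpq
            · exact hpq.symm
            · exact absurd rfl huv
          refine hv'.1 (comps_closed hE huE hadj' ?_)
          rw [mem_insert, mem_singleton]
          push Not
          exact hv'.2
      rcases key with hk | hk
      · exact hf.1 (hA.down _ _ (subset_inter hfS hk) h1)
      · exact hf.1 (hA.down _ _ (subset_inter hfS hk) h2)

lemma card_left_lt (hv : ∃ v, v ∉ E ∧ v ≠ x ∧ v ≠ y) :
    Fintype.card {v // v ∈ E ∪ {x, y}} < Fintype.card V := by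
  rw [Fintype.card_coe, ← Finset.card_univ]
  refine card_lt_card ?_
  rw [Finset.ssubset_univ_iff]
  intro h
  obtain ⟨v, h1, h2, h3⟩ := hv
  have : v ∈ E ∪ {x, y} := by rw [h]; exact mem_univ v
  rw [mem_union, mem_insert, mem_singleton] at this
  tauto

lemma card_right_lt (hE : E ∈ comps (gr A) {x, y}) :
    Fintype.card {v // v ∈ univ \ E} < Fintype.card V := by
  rw [Fintype.card_coe, ← Finset.card_univ]
  refine card_lt_card ?_
  rw [Finset.ssubset_univ_iff]
  intro h
  obtain ⟨v, hv⟩ := comps_nonempty hE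
  have : v ∈ univ \ E := by rw [h]; exact mem_univ v
  rw [mem_sdiff] at this
  exact this.2 hv

end Pool.Agent.Chrom
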