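import Pool.Agent.Lib_helper88.Chrom.Mono

/-!
# The product formula at a clique cut with two vertices

`rs A W` is the restriction of the family `A` to the subsets of `W`.  If `A` is glued from its
restrictions to `W₁` and `W₂`, `W₁ ∪ W₂ = V`, `W₁ ∩ W₂ = {x, y}`, and no allowed block contains `x`
and `y`, then `X (X - 1) poly A = poly (rs A W₁) poly (rs A W₂)`.
-/

open Finset Polynomial

namespace Pool.Agent.Chrom

variable {V : Type*} [Fintype V] [DecidableEq V]

set_option linter.unusedSectionVars false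

/-- restriction of a family to the subsets of `W` -/
def rs (A : Finset V → Prop) (W : Finset V) : Finset {v // v ∈ W} → Prop :=
  fun S => A (S.map (Function.Embedding.subtype _))

/-- `A` is glued from its restrictions to `W₁` and `W₂` along the forbidden pair `{x, y}` -/
structure ClSplit (A : Finset V → Prop) (x y : V) (W₁ W₂ : Finset V) : Prop where
  ne : x ≠ y
  edge : ∀ S : Finset V, x ∈ S → y ∈ S → ¬ A S
  emp : A ∅
  union : W₁ ∪ W₂ = univ
  inter : W₁ ∩ W₂ = {x, y}
  split : ∀ S : Finset V, A S ↔ A (S ∩ W₁) ∧ A (S ∩ W₂)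

/-- colourings with prescribed colours at `x` and `y` -/
noncomputable def fix2 (A : Finset V → Prop) (x y : V) {N : ℕ} (c d : Fin N) : ℕ :=
  Nat.card {f : V → Fin N // Good A f ∧ f x = c ∧ f y = d}

lemma fix2_perm (A : Finset V → Prop) (x y : V) {N : ℕ} (σ : Equiv.Perm (Fin N)) (c d : Fin N) :
    fix2 A x y c d = fix2 A x y (σ c) (σ d) := by
  unfold fix2
  refine Nat.card_congr ((Equiv.arrowCongr (Equiv.refl V) σ).subtypeEquiv fun f => ?_)
  have h1 : (Equiv.arrowCongr (Equiv.refl V) σ) f = σ ∘ f := by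
    funext w; simp
  rw [h1, good_comp f σ.injective, Function.comp_apply, Function.comp_apply,
    σ.injective.eq_iff, σ.injective.eq_iff]

lemma fix2_eq (A : Finset V → Prop) (x y : V) {N : ℕ} {c d c' d' : Fin N} (h : c ≠ d)
    (h' : c' ≠ d') : fix2 A x y c d = fix2 A x y c' d' := by
  rw [fix2_perm A x y (Equiv.swap c c') c d, Equiv.swap_apply_left]
  set e := Equiv.swap c c' d with he
  have hne : c' ≠ e := by
    intro hh
    have : Equiv.swap c c' c = Equiv.swap c c' d := by rw [Equiv.swap_apply_left]; exact hh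
    exact h ((Equiv.swap c c').injective this)
  rw [fix2_perm A x y (Equiv.swap e d') c' e, Equiv.swap_apply_left,
    Equiv.swap_apply_of_ne_of_ne hne h']

lemma fix2_self {A : Finset V → Prop} {x y : V} (h : ∀ S : Finset V, x ∈ S → y ∈ S → ¬ A S)
    {N : ℕ} (c : Fin N) : fix2 A x y c c = 0 := by
  unfold fix2
  rw [Nat.card_eq_zero]
  left
  constructor
  rintro ⟨f, hf, hx, hy⟩
  exact h (cls f x) (by simp) (by simp [hx, hy]) (hf x)

lemma sum_fix2 (A : Finset V → Prop) (x y : V) (N : ℕ) :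
    ∑ c : Fin N, ∑ d : Fin N, fix2 A x y c d = cnt A N := by
  classical
  unfold fix2 cnt
  have e : {f : V → Fin N // Good A f} ≃
      Σ c : Fin N, Σ d : Fin N, {f : V → Fin N // Good A f ∧ f x = c ∧ f y = d} :=
    { toFun := fun f => ⟨f.1 x, f.1 y, f.1, f.2, rfl, rfl⟩
      invFun := fun p => ⟨p.2.2.1, p.2.2.2.1⟩
      left_inv := fun f => rfl
      right_inv := by
        rintro ⟨c, d, f, hf, rfl, rfl⟩
        rfl }
  rw [Nat.card_congr e, Nat.card_sigma]
  refine Finset.sum_congr rfl fun c _ => ?_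
  rw [Nat.card_sigma]

lemma mul_fix2 {A : Finset V → Prop} {x y : V} (h : ∀ S : Finset V, x ∈ S → y ∈ S → ¬ A S)
    {N : ℕ} {c d : Fin N} (hcd : c ≠ d) : N * (N - 1) * fix2 A x y c d = cnt A N := by
  classical
  rw [← sum_fix2 A x y N]
  have h1 : ∀ c' : Fin N, ∑ d' : Fin N, fix2 A x y c' d' = (N - 1) * fix2 A x y c d := by
    intro c'
    rw [← Finset.add_sum_erase _ _ (mem_univ c'), fix2_self h, zero_add]
    rw [Finset.sum_congr rfl (g := fun _ => fix2 A x y c d)]
    · rw [Finset.sum_const, card_erase_of_mem (mem_univ c'), Finset.card_univ, Fintype.card_fin,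
        smul_eq_mul]
    · intro d' hd'
      exact fix2_eq A x y (Ne.symm (ne_of_mem_erase hd')) hcd
  rw [Finset.sum_congr rfl fun c' _ => h1 c', Finset.sum_const, Finset.card_univ, Fintype.card_fin,
    smul_eq_mul, mul_assoc]

lemma map_cls_restrict {N : ℕ} (f : V → Fin N) (W : Finset V) (v : {v // v ∈ W}) :
    (cls (fun w : {v // v ∈ W} => f w) v).map (Function.Embedding.subtype _) = cls f v ∩ W := by
  ext w
  rw [mem_map, mem_inter, mem_cls]
  constructor
  · rintro ⟨u, hu, rfl⟩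
    rw [mem_cls] at hu
    exact ⟨hu, u.2⟩
  · rintro ⟨h1, h2⟩
    exact ⟨⟨w, h2⟩, by rw [mem_cls]; exact h1, rfl⟩

variable {A : Finset V → Prop} {x y : V} {W₁ W₂ : Finset V}

lemma good_rs_iff (W : Finset V) {N : ℕ} (f : V → Fin N) :
    Good (rs A W) (fun w : {v // v ∈ W} => f w) ↔ ∀ v ∈ W, A (cls f v ∩ W) := by
  unfold Good rs
  simp only [map_cls_restrict]
  constructor
  · intro h v hv; exact h ⟨v, hv⟩
  · intro h v; exact h v.1 v.2

namespace ClSplit

lemma symm (h : ClSplit A x y W₁ W₂) : ClSplit A x y W₂ W₁ where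
  ne := h.ne
  edge := h.edge
  emp := h.emp
  union := by rw [Finset.union_comm]; exact h.union
  inter := by rw [Finset.inter_comm]; exact h.inter
  split := fun S => by rw [h.split S, and_comm]

lemma mem_left (h : ClSplit A x y W₁ W₂) : x ∈ W₁ ∧ y ∈ W₁ := by
  have hx : x ∈ W₁ ∩ W₂ := by rw [h.inter]; simp
  have hy : y ∈ W₁ ∩ W₂ := by rw [h.inter]; simp
  exact ⟨(mem_inter.1 hx).1, (mem_inter.1 hy).1⟩

lemma mem_right (h : ClSplit A x y W₁ W₂) : x ∈ W₂ ∧ y ∈ W₂ := h.symm.mem_left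

lemma cover (h : ClSplit A x y W₁ W₂) (v : V) : v ∈ W₁ ∨ v ∈ W₂ := by
  have : v ∈ W₁ ∪ W₂ := by rw [h.union]; exact mem_univ v
  exact mem_union.1 this

lemma good_iff (h : ClSplit A x y W₁ W₂) {N : ℕ} (f : V → Fin N) :
    Good A f ↔ Good (rs A W₁) (fun w : {v // v ∈ W₁} => f w) ∧
      Good (rs A W₂) (fun w : {v // v ∈ W₂} => f w) := by
  rw [good_rs_iff, good_rs_iff]
  have key : ∀ W, (∀ v ∈ W, A (cls f v ∩ W)) → ∀ v, A (cls f v ∩ W) := by
    intro W hW v
    by_cases hne : (cls f v ∩ W).Nonempty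
    · obtain ⟨w, hw⟩ := hne
      rw [mem_inter, mem_cls] at hw
      have h1 := hW w hw.2
      have e : cls f w = cls f v := by
        ext u; rw [mem_cls, mem_cls, hw.1]
      rwa [e] at h1
    · rw [Finset.not_nonempty_iff_eq_empty] at hne
      rw [hne]; exact h.emp
  constructor
  · intro hf
    exact ⟨fun v _ => ((h.split _).1 (hf v)).1, fun v _ => ((h.split _).1 (hf v)).2⟩
  · rintro ⟨h1, h2⟩ v
    exact (h.split _).2 ⟨key _ h1 v, key _ h2 v⟩

lemma fix2_mul (h : ClSplit A x y W₁ W₂) {N : ℕ} (c d : Fin N) :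
    fix2 A x y c d = fix2 (rs A W₁) ⟨x, h.mem_left.1⟩ ⟨y, h.mem_left.2⟩ c d *
      fix2 (rs A W₂) ⟨x, h.mem_right.1⟩ ⟨y, h.mem_right.2⟩ c d := by
  classical
  unfold fix2
  rw [← Nat.card_prod]
  refine Nat.card_congr
    { toFun := fun f => (⟨fun w => f.1 w, ((h.good_iff f.1).1 f.2.1).1, f.2.2.1, f.2.2.2⟩,
        ⟨fun w => f.1 w, ((h.good_iff f.1).1 f.2.1).2, f.2.2.1, f.2.2.2⟩)
      invFun := fun p => ⟨fun v => if hv : v ∈ W₁ then p.1.1 ⟨v, hv⟩
        else p.2.1 ⟨v, (h.cover v).resolve_left hv⟩, ?_⟩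
      left_inv := ?_
      right_inv := ?_ }
  · obtain ⟨⟨g, hg, hgx, hgy⟩, ⟨k, hk, hkx, hky⟩⟩ := p
    simp only
    set F : V → Fin N := fun v => if hv : v ∈ W₁ then g ⟨v, hv⟩
        else k ⟨v, (h.cover v).resolve_left hv⟩ with hF
    have e1 : (fun w : {v // v ∈ W₁} => F w) = g := by
      funext w; simp only [hF, dif_pos w.2]
    have e2 : (fun w : {v // v ∈ W₂} => F w) = k := by
      funext w
      by_cases hw : (w : V) ∈ W₁
      · simp only [hF, dif_pos hw]
        have hmem : (w : V) ∈ W₁ ∩ W₂ := mem_inter.2 ⟨hw, w.2⟩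
        rw [h.inter, mem_insert, mem_singleton] at hmem
        obtain ⟨w, hw2⟩ := w
        rcases hmem with hh | hh
        · simp only at hh
          subst hh
          rw [hgx, hkx]
        · simp only at hh
          subst hh
          rw [hgy, hky]
      · simp only [hF, dif_neg hw]
    refine ⟨?_, ?_, ?_⟩
    · rw [h.good_iff, e1, e2]; exact ⟨hg, hk⟩
    · have : F x = g ⟨x, h.mem_left.1⟩ := congrFun e1 ⟨x, h.mem_left.1⟩
      exact this.trans hgx
    · have : F y = g ⟨y, h.mem_left.2⟩ := congrFun e1 ⟨y, h.mem_left.2⟩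
      exact this.trans hgy
  · rintro ⟨f, hf, hfx, hfy⟩
    apply Subtype.ext
    funext v
    by_cases hv : v ∈ W₁
    · simp only [dif_pos hv]
    · simp only [dif_neg hv]
  · rintro ⟨⟨g, hg, hgx, hgy⟩, ⟨k, hk, hkx, hky⟩⟩
    refine Prod.ext (Subtype.ext ?_) (Subtype.ext ?_)
    · funext w; simp only [dif_pos w.2]
    · funext w
      by_cases hw : (w : V) ∈ W₁
      · simp only [dif_pos hw]
        have hmem : (w : V) ∈ W₁ ∩ W₂ := mem_inter.2 ⟨hw, w.2⟩
        rw [h.inter, mem_insert, mem_singleton] at hmem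
        obtain ⟨w, hw2⟩ := w
        rcases hmem with hh | hh
        · simp only at hh
          subst hh
          rw [hgx, hkx]
        · simp only at hh
          subst hh
          rw [hgy, hky]
      · simp only [dif_neg hw]

lemma edge_rs (h : ClSplit A x y W₁ W₂) (S : Finset {v // v ∈ W₁})
    (hx : (⟨x, h.mem_left.1⟩ : {v // v ∈ W₁}) ∈ S) (hy : (⟨y, h.mem_left.2⟩ : {v // v ∈ W₁}) ∈ S) :
    ¬ rs A W₁ S :=
  h.edge _ (mem_map.2 ⟨_, hx, rfl⟩) (mem_map.2 ⟨_, hy, rfl⟩)

lemma cnt_mul (h : ClSplit A x y W₁ W₂) (N : ℕ) :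
    N * (N - 1) * cnt A N = cnt (rs A W₁) N * cnt (rs A W₂) N := by
  by_cases hN : ∃ c d : Fin N, c ≠ d
  · obtain ⟨c, d, hcd⟩ := hN
    rw [← mul_fix2 h.edge hcd, ← mul_fix2 h.edge_rs hcd, ← mul_fix2 h.symm.edge_rs hcd,
      h.fix2_mul c d]
    ring
  · push Not at hN
    have hle : N ≤ 1 := by
      by_contra hlt
      push Not at hlt
      have := hN ⟨0, by omega⟩ ⟨1, by omega⟩
      rw [Fin.mk.injEq] at this
      omega
    have h0 : N * (N - 1) = 0 := by
      have : N - 1 = 0 := by omega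
      rw [this, mul_zero]
    have h1 : cnt (rs A W₁) N = 0 := by
      rw [← sum_fix2 _ (⟨x, h.mem_left.1⟩ : {v // v ∈ W₁}) ⟨y, h.mem_left.2⟩ N]
      refine Finset.sum_eq_zero fun c _ => Finset.sum_eq_zero fun d _ => ?_
      rw [hN c d]
      exact fix2_self h.edge_rs d
    rw [h0, h1, zero_mul, zero_mul]

/-- **product formula** -/
theorem poly_mul (h : ClSplit A x y W₁ W₂) :
    (X : ℝ[X]) * (X - 1) * poly A = poly (rs A W₁) * poly (rs A W₂) :=
  eq_of_eval_nat fun N => by
    rw [eval_mul, eval_mul, eval_mul, eval_sub, eval_X, eval_one, poly_eval_nat, poly_eval_nat,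
      poly_eval_nat]
    have h1 := h.cnt_mul N
    have h2 : ((N * (N - 1) * cnt A N : ℕ) : ℝ) = ((cnt (rs A W₁) N * cnt (rs A W₂) N : ℕ) : ℝ) := by
      rw [h1]
    rcases Nat.eq_zero_or_pos N with rfl | hN
    · push_cast at h2 ⊢
      linarith
    · push_cast [Nat.cast_sub hN] at h2 ⊢
      linarith

lemma card_add (h : ClSplit A x y W₁ W₂) : W₁.card + W₂.card = Fintype.card V + 2 := by
  have h1 := card_union_add_card_inter W₁ W₂
  rw [h.union, h.inter, card_pair h.ne, Finset.card_univ] at h1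
  omega

/-- the sign-normalised product formula -/
theorem FF_mul (h : ClSplit A x y W₁ W₂) (q : ℝ) :
    q * (q - 1) * FF A q = FF (rs A W₁) q * FF (rs A W₂) q := by
  have h1 := congrArg (eval q) h.poly_mul
  rw [eval_mul, eval_mul, eval_mul, eval_sub, eval_X, eval_one] at h1
  unfold FF
  rw [Fintype.card_coe, Fintype.card_coe]
  have h2 : (-1 : ℝ) ^ W₁.card * (-1) ^ W₂.card = (-1) ^ Fintype.card V := by
    rw [← pow_add, h.card_add, pow_add]
    norm_num
  linear_combination (-1 : ℝ) ^ Fintype.card V * h1 -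
    (eval q (poly (rs A W₁)) * eval q (poly (rs A W₂))) * h2

theorem FF_pos (h : ClSplit A x y W₁ W₂) {q : ℝ} (hq : 1 < q) (h1 : 0 < FF (rs A W₁) q)
    (h2 : 0 < FF (rs A W₂) q) : 0 < FF A q := by
  have h3 := h.FF_mul q
  have h4 : 0 < q * (q - 1) := by nlinarith
  have h5 : 0 < q * (q - 1) * FF A q := by rw [h3]; exact mul_pos h1 h2
  exact (mul_pos_iff_of_pos_left h4).1 h5

end ClSplit

end Pool.Agent.Chrom
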